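import Mathlib

/-!
Two fixed-point-free involutions on a set always admit a common proper two-colouring.
-/

namespace Pool.Agent.MPc030b7

open Equiv.Perm

/-- Two fixed-point-free involutions `s`, `t` of a type have a common proper 2-colouring. -/
theorem exists_two_coloring {X : Type*} (s t : X → X)
    (hs : ∀ x, s (s x) = x) (ht : ∀ x, t (t x) = x)
    (hs' : ∀ x, s x ≠ x) (ht' : ∀ x, t x ≠ x) :
    ∃ c : X → Prop, (∀ x, c (s x) ↔ ¬ c x) ∧ (∀ x, c (t x) ↔ ¬ c x) := by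
  classical
  let σ : Equiv.Perm X := ⟨s, s, hs, hs⟩
  let τ : Equiv.Perm X := ⟨t, t, ht, ht⟩
  have hσ : σ * σ = 1 := by ext x; exact hs x
  have hτ : τ * τ = 1 := by ext x; exact ht x
  let ρ : Equiv.Perm X := σ * τ
  -- conjugation by σ inverts ρ
  have hσinv : σ⁻¹ = σ := by
    rw [inv_eq_iff_mul_eq_one]; exact hσ
  have hτinv : τ⁻¹ = τ := by
    rw [inv_eq_iff_mul_eq_one]; exact hτ
  have hconj : σ * ρ * σ⁻¹ = ρ⁻¹ := by
    simp only [ρ, mul_inv_rev, hσinv, hτinv]
    rw [← mul_assoc, hσ, one_mul]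
  have hpow : ∀ n : ℤ, σ * ρ ^ n = ρ ^ (-n) * σ := by
    intro n
    have : (σ * ρ * σ⁻¹) ^ n = σ * ρ ^ n * σ⁻¹ := by
      rw [conj_zpow]
    rw [hconj] at this
    rw [zpow_neg, ← inv_zpow, this]
    group
  -- x and s x are never in the same ρ-cycle
  have key : ∀ x, ¬ SameCycle ρ x (s x) := by
    rintro x ⟨n, hn⟩
    have hn' : (ρ ^ n) x = σ x := hn
    rcases Int.even_or_odd' n with ⟨k, hk | hk⟩
    · -- n = 2k
      apply hs' ((ρ ^ k) x)
      change σ ((ρ ^ k) x) = (ρ ^ k) x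
      have h1 : (σ * ρ ^ k) x = (ρ ^ (-k) * σ) x := by rw [hpow]
      have h2 : (ρ ^ (-k) * σ) x = (ρ ^ (-k)) ((ρ ^ n) x) := by
        rw [hn']; rfl
      have h3 : (ρ ^ (-k)) ((ρ ^ n) x) = (ρ ^ k) x := by
        rw [← Equiv.Perm.mul_apply, ← zpow_add, hk]
        congr 2; ring
      calc σ ((ρ ^ k) x) = (σ * ρ ^ k) x := rfl
        _ = (ρ ^ k) x := by rw [h1, h2, h3]
    · -- n = 2k+1
      apply ht' ((ρ ^ k) x)
      change τ ((ρ ^ k) x) = (ρ ^ k) x
      have h1 : (σ * ρ ^ k) x = (ρ ^ (-k) * σ) x := by rw [hpow]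
      have h2 : (ρ ^ (-k) * σ) x = (ρ ^ (-k)) ((ρ ^ n) x) := by
        rw [hn']; rfl
      have h3 : (ρ ^ (-k)) ((ρ ^ n) x) = (ρ ^ (1 + k)) x := by
        rw [← Equiv.Perm.mul_apply, ← zpow_add, hk]
        congr 2; ring
      have h4 : (ρ ^ (1 + k)) x = σ (τ ((ρ ^ k) x)) := by
        rw [zpow_add, zpow_one]; rfl
      have h5 : σ ((ρ ^ k) x) = σ (τ ((ρ ^ k) x)) := by
        calc σ ((ρ ^ k) x) = (σ * ρ ^ k) x := rfl
          _ = _ := by rw [h1, h2, h3, h4]
      exact (σ.injective h5).symm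
  have key2 : ∀ x, SameCycle ρ (s x) (t x) := by
    intro x
    refine ⟨-1, ?_⟩
    change (ρ ^ (-1 : ℤ)) (σ x) = τ x
    have : ρ ^ (-1 : ℤ) = τ * σ := by
      rw [zpow_neg, zpow_one]
      simp only [ρ, mul_inv_rev, hσinv, hτinv]
    rw [this]
    change τ (σ (σ x)) = τ x
    have : σ (σ x) = x := hs x
    rw [this]
  have key3 : ∀ x y, SameCycle ρ x y → SameCycle ρ (s x) (s y) := by
    rintro x y ⟨n, hn⟩
    refine ⟨-n, ?_⟩
    change (ρ ^ (-n : ℤ)) (σ x) = σ y
    rw [← hn]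
    have := hpow n
    calc (ρ ^ (-n : ℤ)) (σ x) = (ρ ^ (-n) * σ) x := rfl
      _ = (σ * ρ ^ n) x := by rw [this]
      _ = _ := rfl
  let S : Setoid X := SameCycle.setoid ρ
  obtain ⟨r, hr⟩ : ∃ r : Quotient S → Quotient S → Prop, IsWellOrder (Quotient S) r :=
    ⟨WellOrderingRel, inferInstance⟩
  have q1 : ∀ x, (Quotient.mk S x) ≠ Quotient.mk S (s x) := fun x h => key x (Quotient.exact h)
  have q2 : ∀ x, (Quotient.mk S (s x)) = Quotient.mk S (t x) := fun x => Quotient.sound (key2 x)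
  have q3 : ∀ x, (Quotient.mk S (s (t x))) = Quotient.mk S x := by
    intro x
    have := Quotient.sound (s := S) (key3 _ _ (key2 x))
    rw [← this, hs]
  refine ⟨fun x => r (Quotient.mk S x) (Quotient.mk S (s x)), ?_, ?_⟩
  · intro x
    simp only [hs]
    constructor
    · intro h h'
      exact (asymm_of r h) h'
    · intro h
      rcases trichotomous_of r (Quotient.mk S x) (Quotient.mk S (s x)) with h1 | h1 | h1
      · exact absurd h1 h
      · exact absurd h1 (q1 x)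
      · exact h1
  · intro x
    simp only [q3, ← q2]
    constructor
    · intro h h'
      exact (asymm_of r h) h'
    · intro h
      rcases trichotomous_of r (Quotient.mk S x) (Quotient.mk S (s x)) with h1 | h1 | h1
      · exact absurd h1 h
      · exact absurd h1 (q1 x)
      · exact h1

end Pool.Agent.MPc030b7
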