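import Mathlib

/-!
Partial symmetric two-point sets whose half is linearly independent over `ℚ`, and the
one-point extension criterion.
-/

namespace Pool.Agent.MPc030b7

/-- The symmetrisation `S ∪ -S`. -/
def sym (S : Set (ℝ × ℝ)) : Set (ℝ × ℝ) := {p | p ∈ S ∨ -p ∈ S}

/-- The orientation determinant of three points. -/
def det3 (p q r : ℝ × ℝ) : ℝ := (q.1 - p.1) * (r.2 - p.2) - (q.2 - p.2) * (r.1 - p.1)

/-- The cross product of two vectors. -/
def cross (p q : ℝ × ℝ) : ℝ := p.1 * q.2 - p.2 * q.1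

/-- `S` is linearly independent over `ℚ` and `S ∪ -S` has no three collinear points. -/
def Good (S : Set (ℝ × ℝ)) : Prop :=
  LinearIndepOn ℚ id S ∧
    ∀ p ∈ sym S, ∀ q ∈ sym S, ∀ r ∈ sym S, p ≠ q → q ≠ r → p ≠ r → det3 p q r ≠ 0

theorem sym_mono {S T : Set (ℝ × ℝ)} (h : S ⊆ T) : sym S ⊆ sym T := by
  rintro p (hp | hp)
  · exact Or.inl (h hp)
  · exact Or.inr (h hp)

theorem neg_mem_sym {S : Set (ℝ × ℝ)} {p : ℝ × ℝ} (h : p ∈ sym S) : -p ∈ sym S := by
  rcases h with h | h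
  · right; rwa [neg_neg]
  · left; exact h

theorem mem_sym_insert {S : Set (ℝ × ℝ)} {p a : ℝ × ℝ} :
    a ∈ sym (insert p S) ↔ a ∈ sym S ∨ a = p ∨ a = -p := by
  simp only [sym, Set.mem_setOf_eq, Set.mem_insert_iff]
  constructor
  · rintro ((h | h) | (h | h))
    · exact Or.inr (Or.inl h)
    · exact Or.inl (Or.inl h)
    · right; right; rw [← h, neg_neg]
    · exact Or.inl (Or.inr h)
  · rintro ((h | h) | h | h)
    · exact Or.inl (Or.inr h)
    · exact Or.inr (Or.inr h)
    · exact Or.inl (Or.inl h)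
    · right; left; rw [h, neg_neg]

theorem Good.zero_not_mem {S : Set (ℝ × ℝ)} (h : Good S) {p : ℝ × ℝ} (hp : p ∈ sym S) : p ≠ 0 := by
  rintro rfl
  have h0 : (0 : ℝ × ℝ) ∈ S := by
    rcases hp with h | h
    · exact h
    · simpa using h
  exact (h.1.ne_zero (i := (0 : ℝ × ℝ)) h0) rfl

theorem sym_subset_span {S : Set (ℝ × ℝ)} {p : ℝ × ℝ} (hp : p ∈ sym S) :
    p ∈ Submodule.span ℚ S := by
  rcases hp with h | h
  · exact Submodule.subset_span h
  · have := Submodule.neg_mem _ (Submodule.subset_span (R := ℚ) h)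
    simpa using this

theorem det3_swap12 (a b c : ℝ × ℝ) : det3 b a c = -det3 a b c := by
  simp only [det3]; ring

theorem det3_swap23 (a b c : ℝ × ℝ) : det3 a c b = -det3 a b c := by
  simp only [det3]; ring

theorem det3_neg (a b c : ℝ × ℝ) : det3 (-a) (-b) (-c) = det3 a b c := by
  simp only [det3, Prod.fst_neg, Prod.snd_neg]; ring

theorem det3_neg_self (p m : ℝ × ℝ) : det3 p (-p) m = -2 * cross p m := by
  simp only [det3, cross, Prod.fst_neg, Prod.snd_neg]; ring

/-- The one-point extension criterion. -/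
theorem Good.insert {S : Set (ℝ × ℝ)} (hS : Good S) {p : ℝ × ℝ}
    (hp : p ∉ Submodule.span ℚ S)
    (h1 : ∀ m ∈ sym S, ∀ m' ∈ sym S, m ≠ m' → det3 m m' p ≠ 0)
    (h2 : ∀ m ∈ sym S, cross p m ≠ 0) : Good (insert p S) := by
  refine ⟨?_, ?_⟩
  · apply LinearIndepOn.insert hS.1
    simpa using hp
  · have key1 : ∀ m ∈ sym S, ∀ m' ∈ sym S, m ≠ m' → ∀ x, x = p ∨ x = -p →
        det3 m m' x ≠ 0 := by
      rintro m hm m' hm' hne x (rfl | rfl)
      · exact h1 m hm m' hm' hne
      · have := h1 (-m) (neg_mem_sym hm) (-m') (neg_mem_sym hm') (fun h => hne (neg_injective h))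
        rw [← det3_neg]
        simpa using this
    have key2 : ∀ m ∈ sym S, ∀ x y, (x = p ∨ x = -p) → (y = p ∨ y = -p) → x ≠ y →
        det3 x y m ≠ 0 := by
      intro m hm x y hx hy hxy
      have hc := h2 m hm
      rcases hx with rfl | rfl <;> rcases hy with rfl | rfl
      · exact absurd rfl hxy
      · rw [det3_neg_self]
        intro h; apply hc; linarith
      · rw [det3_swap12, det3_neg_self]
        intro h; apply hc; linarith
      · exact absurd rfl hxy
    intro a ha b hb c hc hab hbc hac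
    rw [mem_sym_insert] at ha hb hc
    rcases ha with ha | ha <;> rcases hb with hb | hb <;> rcases hc with hc | hc
    · exact hS.2 a ha b hb c hc hab hbc hac
    · exact key1 a ha b hb hab c hc
    · rw [det3_swap23, neg_ne_zero]; exact key1 a ha c hc hac b hb
    · rw [det3_swap12, det3_swap23, neg_neg]
      exact key2 a ha b c hb hc hbc
    · rw [det3_swap12, det3_swap23, neg_neg]
      exact key1 b hb c hc hbc a ha
    · rw [det3_swap23, neg_ne_zero]
      exact key2 b hb a c ha hc hac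
    · exact key2 c hc a b ha hb hab
    · exfalso
      rcases ha with rfl | rfl <;> rcases hb with rfl | rfl <;> rcases hc with rfl | rfl <;>
        simp_all

theorem good_empty : Good ∅ := by
  refine ⟨linearIndepOn_empty _ _, ?_⟩
  intro p hp
  simp [sym] at hp

theorem mem_sym_iUnion {ι : Type*} {S : ι → Set (ℝ × ℝ)} {p : ℝ × ℝ} :
    p ∈ sym (⋃ i, S i) ↔ ∃ i, p ∈ sym (S i) := by
  simp only [sym, Set.mem_setOf_eq, Set.mem_iUnion]
  constructor
  · rintro (⟨i, h⟩ | ⟨i, h⟩)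
    · exact ⟨i, Or.inl h⟩
    · exact ⟨i, Or.inr h⟩
  · rintro ⟨i, h | h⟩
    · exact Or.inl ⟨i, h⟩
    · exact Or.inr ⟨i, h⟩

theorem good_iUnion {ι : Type*} {S : ι → Set (ℝ × ℝ)} (hdir : Directed (· ⊆ ·) S)
    (h : ∀ i, Good (S i)) : Good (⋃ i, S i) := by
  refine ⟨linearIndepOn_iUnion_of_directed hdir (fun i => (h i).1), ?_⟩
  intro p hp q hq r hr
  rw [mem_sym_iUnion] at hp hq hr
  obtain ⟨i, hi⟩ := hp
  obtain ⟨j, hj⟩ := hq
  obtain ⟨k, hk⟩ := hr
  obtain ⟨l, hil, hjl⟩ := hdir i j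
  obtain ⟨m, hlm, hkm⟩ := hdir l k
  exact (h m).2 p (sym_mono (hil.trans hlm) hi) q (sym_mono (hjl.trans hlm) hj) r
    (sym_mono hkm hk)

end Pool.Agent.MPc030b7
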