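import Mathlib
import Pool.Agent.Lib.MP_c030b7_lc.Good

/-!
The one-step extension lemmas of the transfinite construction.
-/

namespace Pool.Agent.MPc030b7

open Cardinal

theorem small_iUnion {ι α : Type} (hι : #ι < 𝔠) (f : ι → Set α) (hf : ∀ i, (f i).Subsingleton) :
    #(⋃ i, f i : Set α) < 𝔠 := by
  refine lt_of_le_of_lt (mk_iUnion_le_sum_mk) ?_
  have h1 : (sum fun i => #(f i)) ≤ sum (fun _ : ι => (1 : Cardinal)) := by
    apply sum_le_sum
    intro i
    rw [mk_le_one_iff_set_subsingleton]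
    exact hf i
  refine lt_of_le_of_lt h1 ?_
  simpa using hι

theorem small_union {α : Type} {A B : Set α} (hA : #A < 𝔠) (hB : #B < 𝔠) :
    #(A ∪ B : Set α) < 𝔠 :=
  lt_of_le_of_lt (mk_union_le A B) (add_lt_of_lt aleph0_le_continuum hA hB)

theorem small_span {S : Set (ℝ × ℝ)} (hS : #S < 𝔠) :
    #(Submodule.span ℚ S : Set (ℝ × ℝ)) < 𝔠 := by
  rcases S.eq_empty_or_nonempty with rfl | hne
  · rw [Submodule.span_empty]
    simpa using (lt_trans one_lt_aleph0 aleph0_lt_continuum)
  · have : Nonempty S := hne.to_subtype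
    have h1 : #(S →₀ ℚ) < 𝔠 := by
      rw [mk_finsupp_of_infinite']
      apply max_lt hS
      simpa using aleph0_lt_continuum
    refine lt_of_le_of_lt ?_ h1
    rw [← Finsupp.range_linearCombination ℚ |>.trans (by rw [Subtype.range_coe_subtype]; rfl :
      Submodule.span ℚ (Set.range (Subtype.val : S → ℝ × ℝ)) = Submodule.span ℚ S)]
    exact mk_range_le

theorem small_sym {S : Set (ℝ × ℝ)} (hS : #S < 𝔠) : #(sym S) < 𝔠 := by
  refine lt_of_le_of_lt (mk_le_mk_of_subset (fun p hp => ?_)) (small_span hS)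
  exact sym_subset_span hp

/-- Avoiding fewer than continuum many affine conditions in one real parameter. -/
theorem exists_param {ι : Type} (hι : #ι < 𝔠) (α β : ι → ℝ) (h : ∀ i, α i ≠ 0 ∨ β i ≠ 0)
    {N : Set ℝ} (hN : #N < 𝔠) : ∃ t, t ∉ N ∧ ∀ i, α i + t * β i ≠ 0 := by
  by_contra hcon
  push Not at hcon
  have hcover : (Set.univ : Set ℝ) ⊆ N ∪ ⋃ i, {t | α i + t * β i = 0} := by
    intro t _
    by_cases ht : t ∈ N
    · exact Or.inl ht
    · obtain ⟨i, hi⟩ := hcon t ht
      exact Or.inr (Set.mem_iUnion.mpr ⟨i, hi⟩)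
  have hsub : ∀ i, ({t | α i + t * β i = 0} : Set ℝ).Subsingleton := by
    intro i t ht t' ht'
    have ht1 : α i + t * β i = 0 := ht
    have ht2 : α i + t' * β i = 0 := ht'
    have hβ : β i ≠ 0 := by
      intro hb
      rcases h i with h1 | h1
      · rw [hb] at ht1; apply h1; linarith
      · exact h1 hb
    have : (t - t') * β i = 0 := by linarith
    rcases mul_eq_zero.mp this with h1 | h1
    · linarith
    · exact absurd h1 hβ
  have h1 := small_union hN (small_iUnion hι _ hsub)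
  have h2 := mk_le_mk_of_subset hcover
  rw [mk_univ, mk_real] at h2
  exact absurd (lt_of_le_of_lt h2 h1) (lt_irrefl _)

theorem small_preimage {α β : Type} {f : α → β} (hf : Function.Injective f) {N : Set β}
    (hN : #N < 𝔠) : #(f ⁻¹' N : Set α) < 𝔠 :=
  lt_of_le_of_lt (mk_preimage_of_injective f N hf) hN

/-- Extension along a line: if the line meets `sym S` in at most one point, we may add a new point
of the line. -/
theorem exists_on_line {S : Set (ℝ × ℝ)} (hS : Good S) (hcard : #S < 𝔠) {a b c : ℝ}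
    (hab : a ≠ 0 ∨ b ≠ 0)
    (hone : ∀ p ∈ sym S, ∀ q ∈ sym S, a * p.1 + b * p.2 = c → a * q.1 + b * q.2 = c → p = q) :
    ∃ p : ℝ × ℝ, a * p.1 + b * p.2 = c ∧ p ∉ sym S ∧ Good (insert p S) := by
  have hn : a ^ 2 + b ^ 2 ≠ 0 := by
    rcases hab with h | h
    · positivity
    · positivity
  let p0 : ℝ × ℝ := (a * c / (a ^ 2 + b ^ 2), b * c / (a ^ 2 + b ^ 2))
  have hp0 : a * p0.1 + b * p0.2 = c := by
    simp only [p0]
    field_simp
  let d : ℝ × ℝ := (-b, a)
  let pt : ℝ → ℝ × ℝ := fun t => (p0.1 + t * (-b), p0.2 + t * a)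
  have hpt : ∀ t, a * (pt t).1 + b * (pt t).2 = c := by
    intro t
    simp only [pt]
    linear_combination hp0
  have hinj : Function.Injective pt := by
    intro t t' h
    have h1 : p0.1 + t * (-b) = p0.1 + t' * (-b) := congrArg Prod.fst h
    have h2 : p0.2 + t * a = p0.2 + t' * a := congrArg Prod.snd h
    rcases hab with ha | hb
    · have : (t - t') * a = 0 := by linarith
      rcases mul_eq_zero.mp this with h3 | h3
      · linarith
      · exact absurd h3 ha
    · have : (t - t') * b = 0 := by linarith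
      rcases mul_eq_zero.mp this with h3 | h3
      · linarith
      · exact absurd h3 hb
  let P : Type := {x : sym S × sym S // x.1 ≠ x.2}
  have hsym := small_sym hcard
  have hP : #P < 𝔠 :=
    lt_of_le_of_lt (mk_subtype_le _) (by
      rw [mk_prod]
      simpa using mul_lt_of_lt aleph0_le_continuum hsym hsym)
  let α : P ⊕ sym S → ℝ := Sum.elim (fun x => det3 x.1.1 x.1.2 p0) (fun m => cross p0 m)
  let β : P ⊕ sym S → ℝ := Sum.elim
    (fun x => ((x.1.2 : ℝ × ℝ).1 - (x.1.1 : ℝ × ℝ).1) * a +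
      ((x.1.2 : ℝ × ℝ).2 - (x.1.1 : ℝ × ℝ).2) * b)
    (fun m => -b * (m : ℝ × ℝ).2 - a * (m : ℝ × ℝ).1)
  have hαβ : ∀ i, α i ≠ 0 ∨ β i ≠ 0 := by
    rintro (⟨⟨m, m'⟩, hne⟩ | m)
    · by_contra hcon
      push Not at hcon
      obtain ⟨e2, e1⟩ := hcon
      simp only [α, β, Sum.elim_inl, det3] at e1 e2
      have hne' : (m : ℝ × ℝ) ≠ m' := fun h => hne (Subtype.ext h)
      have hm : a * (m : ℝ × ℝ).1 + b * (m : ℝ × ℝ).2 = c := by
        have hδ : ((m' : ℝ × ℝ).1 - (m : ℝ × ℝ).1) ≠ 0 ∨ ((m' : ℝ × ℝ).2 - (m : ℝ × ℝ).2) ≠ 0 := by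
          by_contra h
          push Not at h
          apply hne'
          ext
          · linarith [h.1]
          · linarith [h.2]
        rcases hδ with h | h
        · have : ((m' : ℝ × ℝ).1 - (m : ℝ × ℝ).1) *
              (c - (a * (m : ℝ × ℝ).1 + b * (m : ℝ × ℝ).2)) = 0 := by
            rw [← hp0]
            linear_combination (p0.1 - (m : ℝ × ℝ).1) * e1 + b * e2
          rcases mul_eq_zero.mp this with h1 | h1
          · exact absurd h1 h
          · linarith
        · have : ((m' : ℝ × ℝ).2 - (m : ℝ × ℝ).2) *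
              (c - (a * (m : ℝ × ℝ).1 + b * (m : ℝ × ℝ).2)) = 0 := by
            rw [← hp0]
            linear_combination (p0.2 - (m : ℝ × ℝ).2) * e1 - a * e2
          rcases mul_eq_zero.mp this with h1 | h1
          · exact absurd h1 h
          · linarith
      have hm' : a * (m' : ℝ × ℝ).1 + b * (m' : ℝ × ℝ).2 = c := by
        linear_combination hm + e1
      exact hne' (hone _ m.2 _ m'.2 hm hm')
    · by_contra hcon
      push Not at hcon
      obtain ⟨e2, e1⟩ := hcon
      simp only [α, β, Sum.elim_inr, cross] at e1 e2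
      have hm0 : (m : ℝ × ℝ) ≠ 0 := hS.zero_not_mem m.2
      have hm0' : (m : ℝ × ℝ).1 ≠ 0 ∨ (m : ℝ × ℝ).2 ≠ 0 := by
        by_contra h
        push Not at h
        exact hm0 (Prod.ext h.1 h.2)
      have hc : c = 0 := by
        rcases hm0' with h | h
        · have : (m : ℝ × ℝ).1 * c = 0 := by
            rw [← hp0]
            linear_combination (-p0.1) * e1 - b * e2
          rcases mul_eq_zero.mp this with h1 | h1
          · exact absurd h1 h
          · exact h1
        · have : (m : ℝ × ℝ).2 * c = 0 := by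
            rw [← hp0]
            linear_combination (-p0.2) * e1 + a * e2
          rcases mul_eq_zero.mp this with h1 | h1
          · exact absurd h1 h
          · exact h1
      have h1 : a * (m : ℝ × ℝ).1 + b * (m : ℝ × ℝ).2 = c := by
        rw [hc]; linarith
      have h2 : a * (-(m : ℝ × ℝ)).1 + b * (-(m : ℝ × ℝ)).2 = c := by
        rw [hc, Prod.fst_neg, Prod.snd_neg]; linarith
      have := hone _ m.2 _ (neg_mem_sym m.2) h1 h2
      exact hm0 (self_eq_neg.mp this)
  have hι : #(P ⊕ sym S) < 𝔠 := by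
    rw [mk_sum, lift_id, lift_id]
    exact add_lt_of_lt aleph0_le_continuum hP hsym
  obtain ⟨t, htN, ht⟩ := exists_param hι α β hαβ (small_preimage hinj (small_span hcard))
  have hspan : pt t ∉ Submodule.span ℚ S := htN
  refine ⟨pt t, hpt t, fun h => hspan (sym_subset_span h), hS.insert hspan ?_ ?_⟩
  · intro m hm m' hm' hne hdet
    have := ht (Sum.inl ⟨(⟨m, hm⟩, ⟨m', hm'⟩), fun h => hne (congrArg Subtype.val h)⟩)
    apply this
    simp only [α, β, Sum.elim_inl]
    rw [← hdet]
    simp only [det3, pt]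
    ring
  · intro m hm hcr
    have := ht (Sum.inr ⟨m, hm⟩)
    apply this
    simp only [α, β, Sum.elim_inr]
    rw [← hcr]
    simp only [cross, pt]
    ring

/-- Avoiding fewer than continuum many lines and points in the plane. -/
theorem exists_plane {ι : Type} (hι : #ι < 𝔠) (w : ι → ℝ × ℝ) (k : ι → ℝ) (hw : ∀ i, w i ≠ 0)
    {N : Set (ℝ × ℝ)} (hN : #N < 𝔠) : ∃ p, p ∉ N ∧ ∀ i, cross (w i) p + k i ≠ 0 := by
  obtain ⟨s, -, hs⟩ := exists_param hι (fun i => -(w i).2) (fun i => (w i).1) (by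
    intro i
    by_contra h
    push Not at h
    exact hw i (Prod.ext h.2 (by simpa using h.1))) (N := ∅) (by
      simpa using (lt_trans (lt_trans one_pos one_lt_aleph0) aleph0_lt_continuum))
  have hinj : Function.Injective (fun t : ℝ => (t, t * s)) := fun t t' h => congrArg Prod.fst h
  obtain ⟨t, ht1, ht2⟩ := exists_param hι k (fun i => -(w i).2 + s * (w i).1)
    (fun i => Or.inr (hs i)) (small_preimage hinj hN)
  refine ⟨(t, t * s), ht1, ?_⟩
  intro i h
  apply ht2 i
  rw [← h]
  simp only [cross]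
  ring

/-- Extension to capture a vector in the span. -/
theorem exists_for_vector {S : Set (ℝ × ℝ)} (hS : Good S) (hcard : #S < 𝔠) {v : ℝ × ℝ}
    (hv : v ∉ Submodule.span ℚ S) :
    ∃ p q : ℝ × ℝ, Good (insert q (insert p S)) ∧
      v ∈ Submodule.span ℚ (insert q (insert p S)) := by
  let P : Type := {x : sym S × sym S // x.1 ≠ x.2}
  have hsym := small_sym hcard
  have hP : #P < 𝔠 :=
    lt_of_le_of_lt (mk_subtype_le _) (by
      rw [mk_prod]
      simpa using mul_lt_of_lt aleph0_le_continuum hsym hsym)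
  have hv0 : v ≠ 0 := by
    rintro rfl; exact hv (Submodule.zero_mem _)
  have hv2 : ∀ m ∈ sym S, v - (2 : ℚ) • m ≠ 0 := by
    intro m hm h
    apply hv
    rw [sub_eq_zero.mp h]
    exact Submodule.smul_mem _ _ (sym_subset_span hm)
  -- the conditions
  let w : (P ⊕ P) ⊕ ((sym S ⊕ sym S) ⊕ (sym S ⊕ sym S)) ⊕ Unit → ℝ × ℝ := Sum.elim
    (Sum.elim (fun x => (x.1.2 : ℝ × ℝ) - x.1.1) (fun x => (x.1.2 : ℝ × ℝ) - x.1.1))
    (Sum.elim (Sum.elim
      (Sum.elim (fun m => (m : ℝ × ℝ)) (fun m => v - (2 : ℚ) • (m : ℝ × ℝ)))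
      (Sum.elim (fun _ => v) (fun m => (m : ℝ × ℝ)))) (fun _ => v))
  let k : (P ⊕ P) ⊕ ((sym S ⊕ sym S) ⊕ (sym S ⊕ sym S)) ⊕ Unit → ℝ := Sum.elim
    (Sum.elim (fun x => -cross ((x.1.2 : ℝ × ℝ) - x.1.1) x.1.1)
      (fun x => -cross ((x.1.2 : ℝ × ℝ) - x.1.1) (v - x.1.1)))
    (Sum.elim (Sum.elim
      (Sum.elim (fun _ => 0) (fun m => cross m v))
      (Sum.elim (fun m => -cross m v) (fun m => cross v m))) (fun _ => 0))
  have hw : ∀ i, w i ≠ 0 := by
    rintro ((⟨⟨m, m'⟩, hne⟩ | ⟨⟨m, m'⟩, hne⟩) | (((m | m) | (m | m)) | _))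
    · exact sub_ne_zero.mpr fun h => hne (Subtype.ext h).symm
    · exact sub_ne_zero.mpr fun h => hne (Subtype.ext h).symm
    · exact hS.zero_not_mem m.2
    · exact hv2 m m.2
    · exact hv0
    · exact hS.zero_not_mem m.2
    · exact hv0
  have hι : #((P ⊕ P) ⊕ ((sym S ⊕ sym S) ⊕ (sym S ⊕ sym S)) ⊕ Unit) < 𝔠 := by
    have h1 : #Unit < 𝔠 := by simpa using (lt_trans one_lt_aleph0 aleph0_lt_continuum)
    simp only [mk_sum, lift_id]
    have := @add_lt_of_lt
    refine this aleph0_le_continuum (this aleph0_le_continuum hP hP)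
      (this aleph0_le_continuum (this aleph0_le_continuum (this aleph0_le_continuum hsym hsym)
        (this aleph0_le_continuum hsym hsym)) ?_)
    simpa using h1
  have hcardv : #(insert v S : Set (ℝ × ℝ)) < 𝔠 := by
    refine lt_of_le_of_lt mk_insert_le ?_
    exact add_lt_of_lt aleph0_le_continuum hcard (lt_trans one_lt_aleph0 aleph0_lt_continuum)
  obtain ⟨p, hpN, hp⟩ := exists_plane hι w k hw (small_span hcardv)
  have hpN' : p ∉ Submodule.span ℚ (insert v S) := hpN
  have hpS : p ∉ Submodule.span ℚ S :=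
    fun h => hpN' (Submodule.span_mono (Set.subset_insert _ _) h)
  have hqN : v - p ∉ Submodule.span ℚ (insert p S) := by
    intro h
    apply hpN'
    apply mem_span_insert_exchange _ hv
    have h2 : p ∈ Submodule.span ℚ (insert p S) := Submodule.subset_span (Set.mem_insert _ _)
    simpa using Submodule.add_mem _ h h2
  -- named conditions
  have c1 : ∀ m ∈ sym S, ∀ m' ∈ sym S, m ≠ m' → det3 m m' p ≠ 0 := by
    intro m hm m' hm' hne h
    apply hp (Sum.inl (Sum.inl ⟨(⟨m, hm⟩, ⟨m', hm'⟩), fun h => hne (congrArg Subtype.val h)⟩))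
    simp only [w, k, Sum.elim_inl, Sum.elim_inr]
    rw [← h]; simp only [cross, det3, Prod.fst_sub, Prod.snd_sub]; ring
  have c3 : ∀ m ∈ sym S, ∀ m' ∈ sym S, m ≠ m' → det3 m m' (v - p) ≠ 0 := by
    intro m hm m' hm' hne h
    apply hp (Sum.inl (Sum.inr ⟨(⟨m, hm⟩, ⟨m', hm'⟩), fun h => hne (congrArg Subtype.val h)⟩))
    simp only [w, k, Sum.elim_inl, Sum.elim_inr]
    rw [← neg_zero, ← h]; simp only [cross, det3, Prod.fst_sub, Prod.snd_sub]; ring
  have c2 : ∀ m ∈ sym S, cross p m ≠ 0 := by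
    intro m hm h
    apply hp (Sum.inr (Sum.inl (Sum.inl (Sum.inl ⟨m, hm⟩))))
    simp only [w, k, Sum.elim_inl, Sum.elim_inr]
    simp only [cross] at h ⊢; linear_combination -h
  have c4 : ∀ m ∈ sym S, det3 p m (v - p) ≠ 0 := by
    intro m hm h
    apply hp (Sum.inr (Sum.inl (Sum.inl (Sum.inr ⟨m, hm⟩))))
    simp only [w, k, Sum.elim_inl, Sum.elim_inr]
    rw [← h]
    have e : (2 : ℚ) • m = (2 * m.1, 2 * m.2) := by
      ext <;> simp [Rat.smul_def]
    rw [e]
    simp only [cross, det3, Prod.fst_sub, Prod.snd_sub]; ring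
  have c5 : ∀ m ∈ sym S, det3 (-p) m (v - p) ≠ 0 := by
    intro m hm h
    apply hp (Sum.inr (Sum.inl (Sum.inr (Sum.inl ⟨m, hm⟩))))
    simp only [w, k, Sum.elim_inl, Sum.elim_inr]
    rw [← neg_zero, ← h]
    simp only [cross, det3, Prod.fst_sub, Prod.snd_sub, Prod.fst_neg, Prod.snd_neg]; ring
  have c7 : ∀ m ∈ sym S, cross (v - p) m ≠ 0 := by
    intro m hm h
    apply hp (Sum.inr (Sum.inl (Sum.inr (Sum.inr ⟨m, hm⟩))))
    simp only [w, k, Sum.elim_inl, Sum.elim_inr]
    rw [← h]
    simp only [cross, Prod.fst_sub, Prod.snd_sub]; ring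
  have c6 : cross v p ≠ 0 := by
    intro h
    apply hp (Sum.inr (Sum.inr ()))
    simp only [w, k, Sum.elim_inl, Sum.elim_inr]
    rw [h]; ring
  have hG1 : Good (insert p S) := hS.insert hpS c1 c2
  refine ⟨p, v - p, hG1.insert hqN ?_ ?_, ?_⟩
  · intro x hx y hy hxy
    rw [mem_sym_insert] at hx hy
    rcases hx with hx | rfl | rfl <;> rcases hy with hy | rfl | rfl
    · exact c3 x hx y hy hxy
    · rw [det3_swap12, neg_ne_zero]; exact c4 x hx
    · rw [det3_swap12, neg_ne_zero]; exact c5 x hx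
    · exact c4 y hy
    · exact absurd rfl hxy
    · rw [det3_neg_self]
      intro h; apply c6
      simp only [cross, Prod.fst_sub, Prod.snd_sub] at h ⊢
      linear_combination (1 / 2) * h
    · exact c5 y hy
    · rw [det3_swap12, det3_neg_self]
      intro h; apply c6
      simp only [cross, Prod.fst_sub, Prod.snd_sub] at h ⊢
      linear_combination (-1 / 2) * h
    · exact absurd rfl hxy
  · intro x hx
    rw [mem_sym_insert] at hx
    rcases hx with hx | rfl | rfl
    · exact c7 x hx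
    · intro h; apply c6
      simp only [cross, Prod.fst_sub, Prod.snd_sub] at h ⊢
      linear_combination h
    · intro h; apply c6
      simp only [cross, Prod.fst_sub, Prod.snd_sub, Prod.fst_neg, Prod.snd_neg] at h ⊢
      linear_combination -h
  · have h1 : v - p ∈ Submodule.span ℚ (insert (v - p) (insert p S)) :=
      Submodule.subset_span (Set.mem_insert _ _)
    have h2 : p ∈ Submodule.span ℚ (insert (v - p) (insert p S)) :=
      Submodule.subset_span (Set.mem_insert_of_mem _ (Set.mem_insert _ _))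
    simpa using Submodule.add_mem _ h1 h2

end Pool.Agent.MPc030b7
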