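import Mathlib
import Pool.Agent.Lib.MP_c030b7_lc.Step

/-!
The transfinite construction of a Hamel basis `H` of the plane such that `H ∪ -H` meets every
straight line in exactly two points.
-/

namespace Pool.Agent.MPc030b7

open Cardinal

/-- The tasks of the construction: lines (given by coefficients) and vectors. -/
abbrev Task : Type := (ℝ × ℝ × ℝ) ⊕ (ℝ × ℝ)

/-- The task `t` is done in `S`. -/
def Done : Task → Set (ℝ × ℝ) → Prop
  | Sum.inl (a, b, c), S => (a ≠ 0 ∨ b ≠ 0) → ∃ p ∈ sym S, ∃ q ∈ sym S, p ≠ q ∧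
      a * p.1 + b * p.2 = c ∧ a * q.1 + b * q.2 = c
  | Sum.inr v, S => v ∈ Submodule.span ℚ S

theorem Done.mono {t : Task} {S T : Set (ℝ × ℝ)} (h : Done t S) (hST : S ⊆ T) : Done t T := by
  rcases t with ⟨a, b, c⟩ | v
  · intro hab
    obtain ⟨p, hp, q, hq, h1⟩ := h hab
    exact ⟨p, sym_mono hST hp, q, sym_mono hST hq, h1⟩
  · exact Submodule.span_mono hST h

theorem mem_sym_insert_self {S : Set (ℝ × ℝ)} {p : ℝ × ℝ} : p ∈ sym (insert p S) :=
  Or.inl (Set.mem_insert _ _)

theorem small_insert {S : Set (ℝ × ℝ)} (hS : #S < 𝔠) (p : ℝ × ℝ) :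
    #(insert p S : Set (ℝ × ℝ)) < 𝔠 :=
  lt_of_le_of_lt mk_insert_le
    (add_lt_of_lt aleph0_le_continuum hS (lt_trans one_lt_aleph0 aleph0_lt_continuum))

/-- One step: any task can be completed by adding finitely many points. -/
theorem exists_step (t : Task) (S : Set (ℝ × ℝ)) :
    ∃ T : Set (ℝ × ℝ), T.Finite ∧ (Good S → #S < 𝔠 → Good (S ∪ T) ∧ Done t (S ∪ T)) := by
  classical
  by_cases hS : Good S ∧ #S < 𝔠
  swap
  · exact ⟨∅, Set.finite_empty, fun h1 h2 => absurd ⟨h1, h2⟩ hS⟩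
  obtain ⟨hS, hcard⟩ := hS
  by_cases hdone : Done t S
  · exact ⟨∅, Set.finite_empty, fun _ _ => by rw [Set.union_empty]; exact ⟨hS, hdone⟩⟩
  rcases t with ⟨a, b, c⟩ | v
  · have hd : ¬ ((a ≠ 0 ∨ b ≠ 0) → ∃ p ∈ sym S, ∃ q ∈ sym S, p ≠ q ∧
      a * p.1 + b * p.2 = c ∧ a * q.1 + b * q.2 = c) := hdone
    push Not at hd
    obtain ⟨hab, hd⟩ := hd
    have hone : ∀ p ∈ sym S, ∀ q ∈ sym S, a * p.1 + b * p.2 = c → a * q.1 + b * q.2 = c →
        p = q := by
      intro p hp q hq h1 h2
      by_contra hne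
      exact hd p hp q hq hne h1 h2
    obtain ⟨p, hp1, hp2, hp3⟩ := exists_on_line hS hcard hab hone
    by_cases h2 : ∀ x ∈ sym (insert p S), ∀ y ∈ sym (insert p S), a * x.1 + b * x.2 = c →
        a * y.1 + b * y.2 = c → x = y
    · obtain ⟨q, hq1, hq2, hq3⟩ := exists_on_line hp3 (small_insert hcard p) hab h2
      have hU : S ∪ {p, q} = insert q (insert p S) := by
        ext x; simp only [Set.mem_union, Set.mem_insert_iff, Set.mem_singleton_iff]; tauto
      refine ⟨{p, q}, Set.toFinite _, fun _ _ => ?_⟩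
      rw [hU]
      refine ⟨hq3, fun _ => ⟨p, sym_mono (Set.subset_insert _ _) mem_sym_insert_self, q,
        mem_sym_insert_self, ?_, hp1, hq1⟩⟩
      rintro rfl
      exact hq2 mem_sym_insert_self
    · push Not at h2
      obtain ⟨x, hx, y, hy, hx1, hy1, hne⟩ := h2
      have hU : S ∪ {p} = insert p S := by
        ext x; simp only [Set.mem_union, Set.mem_insert_iff, Set.mem_singleton_iff]; tauto
      refine ⟨{p}, Set.toFinite _, fun _ _ => ?_⟩
      rw [hU]
      exact ⟨hp3, fun _ => ⟨x, hx, y, hy, hne, hx1, hy1⟩⟩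
  · have hd : v ∉ Submodule.span ℚ S := hdone
    obtain ⟨p, q, h1, h2⟩ := exists_for_vector hS hcard hd
    have hU : S ∪ {p, q} = insert q (insert p S) := by
      ext x; simp only [Set.mem_union, Set.mem_insert_iff, Set.mem_singleton_iff]; tauto
    refine ⟨{p, q}, Set.toFinite _, fun _ _ => ?_⟩
    rw [hU]
    exact ⟨h1, h2⟩

theorem mk_task : #Task = 𝔠 := by
  simp [Task, mk_sum, mk_prod, mk_real]

/-- There is a good set in which all tasks are done. -/
theorem exists_good_complete : ∃ H : Set (ℝ × ℝ), Good H ∧ ∀ t, Done t H := by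
  classical
  obtain ⟨r, hwo, hr⟩ := Cardinal.exists_ord_eq Task
  choose T hTfin hT using exists_step
  have hwf : WellFounded r := hwo.wf
  let F : Task → Set (ℝ × ℝ) := hwf.fix (fun a f => T a (⋃ b : {b // r b a}, f b.1 b.2))
  have hF : ∀ a, F a = T a (⋃ b : {b // r b a}, F b.1) := by
    intro a
    exact hwf.fix_eq _ a
  let U : Task → Set (ℝ × ℝ) := fun a => ⋃ b : {b // r b a}, F b.1
  have hF' : ∀ a, F a = T a (U a) := hF
  have hFfin : ∀ a, (F a).Finite := fun a => by rw [hF']; exact hTfin _ _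
  have hUcard : ∀ a, #(U a) < 𝔠 := by
    intro a
    have h1 : #{b // r b a} < 𝔠 := by
      have := Cardinal.card_typein_lt (r := r) a hr
      rw [Ordinal.card_typein, mk_task] at this
      exact this
    refine lt_of_le_of_lt (mk_iUnion_le_sum_mk) ?_
    have h2 : (sum fun b : {b // r b a} => #(F b.1)) ≤ sum (fun _ : {b // r b a} => ℵ₀) := by
      apply sum_le_sum
      intro b
      exact (Cardinal.lt_aleph0_iff_set_finite.mpr (hFfin b.1)).le
    refine lt_of_le_of_lt h2 ?_
    rw [sum_const']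
    exact mul_lt_of_lt aleph0_le_continuum h1 aleph0_lt_continuum
  have hUmono : ∀ a b, r b a → U b ∪ F b ⊆ U a := by
    intro a b hba x hx
    rcases hx with hx | hx
    · obtain ⟨⟨c, hc⟩, hx⟩ := Set.mem_iUnion.mp hx
      exact Set.mem_iUnion.mpr ⟨⟨c, _root_.trans hc hba⟩, hx⟩
    · exact Set.mem_iUnion.mpr ⟨⟨b, hba⟩, hx⟩
  have hUeq : ∀ a, U a = ⋃ b : {b // r b a}, (U b.1 ∪ F b.1) := by
    intro a
    apply Set.Subset.antisymm
    · intro x hx
      obtain ⟨b, hb⟩ := Set.mem_iUnion.mp hx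
      exact Set.mem_iUnion.mpr ⟨b, Or.inr hb⟩
    · intro x hx
      obtain ⟨b, hb⟩ := Set.mem_iUnion.mp hx
      exact hUmono a b.1 b.2 hb
  have hcomp : ∀ a b, U a ∪ F a ⊆ U b ∪ F b ∨ U b ∪ F b ⊆ U a ∪ F a := by
    intro a b
    rcases trichotomous_of r a b with h | h | h
    · left; exact (hUmono b a h).trans Set.subset_union_left
    · left; rw [h]
    · right; exact (hUmono a b h).trans Set.subset_union_left
  have hgood : ∀ a, Good (U a) ∧ Good (U a ∪ F a) ∧ Done a (U a ∪ F a) := by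
    intro a
    induction a using hwf.induction with
    | _ a ih =>
      have h1 : Good (U a) := by
        rw [hUeq]
        apply good_iUnion
        · intro b c
          rcases hcomp b.1 c.1 with h | h
          · exact ⟨c, h, subset_rfl⟩
          · exact ⟨b, subset_rfl, h⟩
        · intro b
          exact (ih b.1 b.2).2.1
      have h2 := hT a (U a) h1 (hUcard a)
      rw [← hF'] at h2
      exact ⟨h1, h2.1, h2.2⟩
  refine ⟨⋃ a, (U a ∪ F a), ?_, ?_⟩
  · apply good_iUnion
    · intro a b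
      rcases hcomp a b with h | h
      · exact ⟨b, h, subset_rfl⟩
      · exact ⟨a, subset_rfl, h⟩
    · intro a; exact (hgood a).2.1
  · intro a
    exact (hgood a).2.2.mono (Set.subset_iUnion (fun a => U a ∪ F a) a)

end Pool.Agent.MPc030b7
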