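import Mathlib

/-!
Definitions for the problem on Mazurkiewicz sets and Hamel functions.
-/

namespace Pool.Agent.MPc030b7

/-- `L` is a straight line of the plane. -/
def IsStraightLine (L : Set (ℝ × ℝ)) : Prop :=
  ∃ a b c : ℝ, (a ≠ 0 ∨ b ≠ 0) ∧ L = {p : ℝ × ℝ | a * p.1 + b * p.2 = c}

/-- `M` is a Mazurkiewicz (two-point) set: it meets every straight line of the plane in exactly
two points. -/
def IsMazurkiewicz (M : Set (ℝ × ℝ)) : Prop :=
  ∀ L : Set (ℝ × ℝ), IsStraightLine L → (M ∩ L).encard = 2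

/-- The graph of `h : ℝ → ℝ`, as a subset of the plane. -/
def graphOf (h : ℝ → ℝ) : Set (ℝ × ℝ) := {p | p.2 = h p.1}

/-- `S` is a Hamel basis of the plane: a basis of `ℝ × ℝ` as a vector space over `ℚ`. -/
def IsHamelBasis (S : Set (ℝ × ℝ)) : Prop :=
  LinearIndependent ℚ (Subtype.val : S → ℝ × ℝ) ∧ Submodule.span ℚ S = ⊤

/-- `h` is a Hamel function: its graph is a Hamel basis of the plane. -/
def IsHamelFunction (h : ℝ → ℝ) : Prop := IsHamelBasis (graphOf h)

/-- `S` is a union of two Hamel functions. -/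
def IsUnionOfTwoHamelFunctions (S : Set (ℝ × ℝ)) : Prop :=
  ∃ f g : ℝ → ℝ, IsHamelFunction f ∧ IsHamelFunction g ∧ S = graphOf f ∪ graphOf g

/-- The counterclockwise rotation of the plane by the angle `θ` about the origin. -/
noncomputable def rotPlane (θ : ℝ) (p : ℝ × ℝ) : ℝ × ℝ :=
  (Real.cos θ * p.1 - Real.sin θ * p.2, Real.sin θ * p.1 + Real.cos θ * p.2)

end Pool.Agent.MPc030b7
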