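import Mathlib
import Pool.Agent.Lib.MP_c030b7_lc.Coloring
import Pool.Agent.Lib.MP_c030b7_lc.Defs

/-!
If `M = H ∪ -H` with `H` a Hamel basis of the plane and `M` meets every vertical line in exactly
two points, then `M` is the union of the graphs of two Hamel functions.
-/

namespace Pool.Agent.MPc030b7

/-- Choosing one of `p`, `-p` for every `p` in a Hamel basis gives a Hamel basis. -/
theorem isHamelBasis_of_select {H A : Set (ℝ × ℝ)} (hH : IsHamelBasis H)
    (hsub : ∀ p ∈ A, p ∈ H ∨ -p ∈ H) (hsel : ∀ p ∈ H, p ∈ A ∨ -p ∈ A)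
    (hex : ∀ p ∈ A, -p ∉ A) : IsHamelBasis A := by
  classical
  obtain ⟨hli, hsp⟩ := hH
  let w : H → ℚˣ := fun h => if (h : ℝ × ℝ) ∈ A then 1 else -1
  let e : H → ℝ × ℝ := w • (Subtype.val : H → ℝ × ℝ)
  have he : ∀ h : H, e h = if (h : ℝ × ℝ) ∈ A then (h : ℝ × ℝ) else -(h : ℝ × ℝ) := by
    intro h
    change w h • (h : ℝ × ℝ) = _
    by_cases hh : (h : ℝ × ℝ) ∈ A
    · simp [w, hh]
    · simp [w, hh]
  have hlin : LinearIndependent ℚ e := hli.units_smul w
  have hrange : Set.range e = A := by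
    ext p
    constructor
    · rintro ⟨h, rfl⟩
      rw [he]
      by_cases hh : (h : ℝ × ℝ) ∈ A
      · simp [hh]
      · rcases hsel h h.2 with h1 | h1
        · exact absurd h1 hh
        · simpa [hh] using h1
    · intro hp
      rcases hsub p hp with h1 | h1
      · refine ⟨⟨p, h1⟩, ?_⟩
        rw [he]; simp [hp]
      · refine ⟨⟨-p, h1⟩, ?_⟩
        rw [he]
        have : -p ∉ A := hex p hp
        simp [this]
  constructor
  · have := hlin.linearIndepOn_id
    rw [hrange] at this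
    exact this
  · rw [eq_top_iff, ← hsp, Submodule.span_le]
    intro p hp
    rcases hsel p hp with h1 | h1
    · exact Submodule.subset_span h1
    · have : -p ∈ Submodule.span ℚ A := Submodule.subset_span h1
      simpa using (Submodule.neg_mem _ this)

/-- The splitting lemma for vertical lines. -/
theorem exists_hamel_split {H M : Set (ℝ × ℝ)} (hH : IsHamelBasis H)
    (hM : ∀ p, p ∈ M ↔ (p ∈ H ∨ -p ∈ H))
    (hvert : ∀ c : ℝ, (M ∩ {p | p.1 = c}).encard = 2) :
    ∃ f g : ℝ → ℝ, IsHamelFunction f ∧ IsHamelFunction g ∧ M = graphOf f ∪ graphOf g := by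
  classical
  have h0 : ∀ p ∈ M, p ≠ 0 := by
    rintro p hp rfl
    rw [hM] at hp
    have : (0 : ℝ × ℝ) ∈ H := by simpa using hp
    exact (hH.1.ne_zero ⟨0, this⟩) rfl
  have hneg : ∀ p ∈ M, -p ∈ M := by
    intro p hp
    rw [hM] at hp ⊢
    rw [neg_neg]; exact hp.symm
  -- the other point on the vertical line
  have hother : ∀ p : M, ∃ q : M, (q : ℝ × ℝ).1 = (p : ℝ × ℝ).1 ∧ q ≠ p ∧
      ∀ r : M, (r : ℝ × ℝ).1 = (p : ℝ × ℝ).1 → r = p ∨ r = q := by
    rintro ⟨p, hp⟩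
    obtain ⟨x, y, hxy, hset⟩ := Set.encard_eq_two.mp (hvert p.1)
    have hpm : p ∈ M ∩ {q | q.1 = p.1} := ⟨hp, rfl⟩
    have hx : x ∈ M ∩ {q | q.1 = p.1} := by rw [hset]; simp
    have hy : y ∈ M ∩ {q | q.1 = p.1} := by rw [hset]; simp
    rw [hset] at hpm
    rcases hpm with h | h
    · subst h
      refine ⟨⟨y, hy.1⟩, hy.2, ?_, ?_⟩
      · intro h; exact hxy (congrArg Subtype.val h).symm
      · rintro ⟨r, hr⟩ hr1
        have : r ∈ M ∩ {q | q.1 = p.1} := ⟨hr, hr1⟩
        rw [hset] at this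
        rcases this with h | h
        · left; exact Subtype.ext h
        · right; exact Subtype.ext h
    · have h' : p = y := h
      subst h'
      refine ⟨⟨x, hx.1⟩, hx.2, ?_, ?_⟩
      · intro h; exact hxy (congrArg Subtype.val h)
      · rintro ⟨r, hr⟩ hr1
        have : r ∈ M ∩ {q | q.1 = p.1} := ⟨hr, hr1⟩
        rw [hset] at this
        rcases this with h | h
        · right; exact Subtype.ext h
        · left; exact Subtype.ext h
  choose t ht1 ht2 ht3 using hother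
  have htt : ∀ p, t (t p) = p := by
    intro p
    rcases ht3 p (t (t p)) (by rw [ht1, ht1]) with h | h
    · exact h
    · exact absurd h (ht2 (t p))
  let s : M → M := fun p => ⟨-p.1, hneg _ p.2⟩
  have hss : ∀ p, s (s p) = p := by
    intro p; apply Subtype.ext; simp [s]
  have hs' : ∀ p, s p ≠ p := by
    intro p h
    have h1 : -(p : ℝ × ℝ) = p := congrArg Subtype.val h
    exact h0 _ p.2 (self_eq_neg.mp h1.symm)
  obtain ⟨c, hcs, hct⟩ := exists_two_coloring s t hss htt hs' ht2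
  -- every vertical line contains exactly one point of each colour
  have hcol : ∀ (P : M → Prop), (∀ p, P (t p) ↔ ¬ P p) → ∀ x : ℝ, ∃ y : ℝ, ∃ h : (x, y) ∈ M,
      P ⟨(x, y), h⟩ ∧ ∀ r : M, (r : ℝ × ℝ).1 = x → P r → (r : ℝ × ℝ) = (x, y) := by
    intro P hP x
    obtain ⟨a, b, hab, hset⟩ := Set.encard_eq_two.mp (hvert x)
    have ha : a ∈ M ∩ {q | q.1 = x} := by rw [hset]; simp
    have hexists : ∃ p : M, (p : ℝ × ℝ).1 = x ∧ P p := by
      by_cases hPa : P ⟨a, ha.1⟩
      · exact ⟨⟨a, ha.1⟩, ha.2, hPa⟩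
      · refine ⟨t ⟨a, ha.1⟩, ?_, ?_⟩
        · rw [ht1]; exact ha.2
        · rw [hP]; exact hPa
    obtain ⟨⟨⟨p1, p2⟩, hp⟩, hp1, hPp⟩ := hexists
    have hp1' : p1 = x := hp1
    subst hp1'
    refine ⟨p2, hp, hPp, ?_⟩
    intro r hr hPr
    rcases ht3 ⟨(p1, p2), hp⟩ r hr with h | h
    · rw [h]
    · rw [h, hP] at hPr
      exact absurd hPp hPr
  obtain ⟨f, hf⟩ := Classical.axiomOfChoice (hcol c hct)
  obtain ⟨g, hg⟩ := Classical.axiomOfChoice (hcol (fun p => ¬ c p) (fun p => by simp only [hct]))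
  -- description of the graphs
  have hgf : ∀ p, p ∈ graphOf f ↔ ∃ h : p ∈ M, c ⟨p, h⟩ := by
    rintro ⟨x, y⟩
    obtain ⟨h1, h2, h3⟩ := hf x
    constructor
    · intro h
      have : y = f x := h
      subst this
      exact ⟨h1, h2⟩
    · rintro ⟨h, hc⟩
      have := h3 ⟨(x, y), h⟩ rfl hc
      exact congrArg Prod.snd this
  have hgg : ∀ p, p ∈ graphOf g ↔ ∃ h : p ∈ M, ¬ c ⟨p, h⟩ := by
    rintro ⟨x, y⟩
    obtain ⟨h1, h2, h3⟩ := hg x
    constructor
    · intro h
      have : y = g x := h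
      subst this
      exact ⟨h1, h2⟩
    · rintro ⟨h, hc⟩
      have := h3 ⟨(x, y), h⟩ rfl hc
      exact congrArg Prod.snd this
  refine ⟨f, g, ?_, ?_, ?_⟩
  · apply isHamelBasis_of_select hH
    · intro p hp
      obtain ⟨h, -⟩ := (hgf p).mp hp
      exact (hM p).mp h
    · intro p hp
      have hpM : p ∈ M := (hM p).mpr (Or.inl hp)
      by_cases hc : c ⟨p, hpM⟩
      · left; exact (hgf p).mpr ⟨hpM, hc⟩
      · right
        refine (hgf _).mpr ⟨hneg p hpM, ?_⟩
        exact (hcs ⟨p, hpM⟩).mpr hc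
    · intro p hp hp'
      obtain ⟨h, hc⟩ := (hgf p).mp hp
      obtain ⟨h', hc'⟩ := (hgf _).mp hp'
      exact (hcs ⟨p, h⟩).mp hc' hc
  · apply isHamelBasis_of_select hH
    · intro p hp
      obtain ⟨h, -⟩ := (hgg p).mp hp
      exact (hM p).mp h
    · intro p hp
      have hpM : p ∈ M := (hM p).mpr (Or.inl hp)
      by_cases hc : c ⟨p, hpM⟩
      · right
        refine (hgg _).mpr ⟨hneg p hpM, ?_⟩
        exact fun h => (hcs ⟨p, hpM⟩).mp h hc
      · left; exact (hgg p).mpr ⟨hpM, hc⟩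
    · intro p hp hp'
      obtain ⟨h, hc⟩ := (hgg p).mp hp
      obtain ⟨h', hc'⟩ := (hgg _).mp hp'
      exact hc' ((hcs ⟨p, h⟩).mpr hc)
  · ext p
    rw [Set.mem_union, hgf, hgg]
    constructor
    · intro h
      by_cases hc : c ⟨p, h⟩
      · exact Or.inl ⟨h, hc⟩
      · exact Or.inr ⟨h, hc⟩
    · rintro (⟨h, -⟩ | ⟨h, -⟩) <;> exact h

end Pool.Agent.MPc030b7
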